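import Mathlib
import Pool.Agent.R815.CH.Stm
import Pool.Agent.R815.CH.Conv
import Pool.Agent.R815.CH.E1
import Pool.Agent.R815.CH.E2
import Pool.Agent.R815.CH.Res
import Pool.Agent.R815.CH.E3
import Pool.Agent.R815.CH.Exp
import Pool.Agent.R815.CH.Crt
import Pool.Agent.R815.CH.Dbl
import Pool.Agent.R815.CH.Mark
import Pool.Agent.R815.CH.Anti
import Pool.Agent.R815.CH.Rnd
import Pool.Agent.R815.CH.Expm
import Pool.Agent.R815.CH.Ub
import Pool.Agent.R815.CH.Lev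
import Pool.Agent.R815.CH.Vc
import Pool.Agent.R815.CH.Deg
import Pool.Agent.R815.CH.Sysb
import Pool.Agent.R815.CH.T1
import Pool.Agent.R815.CH.Conc
import Pool.Agent.R815.CH.Par
import Pool.Agent.R815.CH.Choose
import Pool.Agent.R815.CH.Fin
import Pool.Agent.R815.CH.Final

/-!
MP_3b6bd2_nt, Q1: the same-modulus Moebius form (M) of Chowla's conjecture implies the Liouville form (L).
-/

namespace Pool.Agent.Results.MP_3b6bd2_nt.MoebiusImpliesLiouville

open R815.CH Filter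

/-- (M) implies (L) for sums over natural `x` -/
theorem stM_stL : StM → StL := by
  intro hM
  have hS : SmM := t_CONV hM
  have hG : S_G := t_FIN hS (t_RND t_DBL t_MARK (t_ANTI t_CRT))
    (t_SYSB hS (t_UB t_EXPM) t_LEV t_VC t_DEG) t_T1 t_CONC t_PAR t_CHOOSE
  exact t_EXP t_E1 t_E2 (t_E3 hG t_RES)

theorem result
    (hM : ∀ a : ℕ, 1 ≤ a → ∀ b : Finset ℕ, b.Nonempty → ∀ d : Finset ℕ,
      (fun x : ℝ => ∑ n ∈ Finset.Icc 1 ⌊x⌋₊,
        ((∏ i ∈ b, ((ArithmeticFunction.moebius (a * n + i) : ℤ) : ℝ)) *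
          ∏ k ∈ d, ((ArithmeticFunction.moebius (a * n + k) : ℤ) : ℝ) ^ 2))
        =o[atTop] (fun x : ℝ => x)) :
    ∀ a : ℕ, 1 ≤ a → ∀ b : Finset ℕ, b.Nonempty →
      (fun x : ℝ => ∑ n ∈ Finset.Icc 1 ⌊x⌋₊,
        ∏ i ∈ b, ((-1 : ℝ)) ^ (ArithmeticFunction.cardFactors (a * n + i)))
        =o[atTop] (fun x : ℝ => x) :=
  final_of stM_stL hM

end Pool.Agent.Results.MP_3b6bd2_nt.MoebiusImpliesLiouville
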